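import Pool.Agent.Lib.MP_e7c36a_al.Assembly

/-!
Every finitely generated free-by-cyclic group embeds into a group `F_n ⋊ ℤ` with `n` finite.
-/

namespace Pool.Agent.Results.MP_e7c36a_al.SemidirectEmbedding

universe u

/-- A group mapping onto `ℤ` with kernel `F_n` embeds into some `F_n ⋊ ℤ`. -/
theorem embed_semidirect {H : Type} [Group H] (ψ : H →* Multiplicative ℤ)
    (hψ : Function.Surjective ψ) (n : ℕ) (e : ψ.ker ≃* FreeGroup (Fin n)) :
    ∃ (φ : MulAut (FreeGroup (Fin n)))
      (f : H →* FreeGroup (Fin n) ⋊[zpowersHom (MulAut (FreeGroup (Fin n))) φ] Multiplicative ℤ),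
      Function.Injective f := by
  obtain ⟨t, ht⟩ := hψ (Multiplicative.ofAdd 1)
  let c : MulAut ψ.ker := MulAut.conjNormal t
  let φ : MulAut (FreeGroup (Fin n)) := (e.symm.trans c).trans e
  have hφ : ∀ x, φ x = e (c (e.symm x)) := fun _ => rfl
  have hφi : ∀ x, φ⁻¹ x = e (c⁻¹ (e.symm x)) := fun _ => rfl
  have hz : ∀ (m : ℤ) (x : ψ.ker), (φ ^ m) (e x) = e ((c ^ m) x) := by
    intro m
    induction m using Int.induction_on with
    | zero => intro x; simp
    | succ i ih =>
      intro x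
      rw [zpow_add, zpow_one, MulAut.mul_apply, hφ, e.symm_apply_apply, ih, zpow_add, zpow_one,
        MulAut.mul_apply]
    | pred i ih =>
      intro x
      rw [zpow_sub, zpow_one, MulAut.mul_apply, hφi, e.symm_apply_apply, ih, zpow_sub, zpow_one,
        MulAut.mul_apply]
  have hc : ∀ (m : ℤ) (x : ψ.ker), (((c ^ m) x : ψ.ker) : H) = t ^ m * x * (t ^ m)⁻¹ := by
    intro m x
    rw [show c ^ m = MulAut.conjNormal (t ^ m) from (map_zpow _ _ _).symm]
    rfl
  let g : FreeGroup (Fin n) ⋊[zpowersHom (MulAut (FreeGroup (Fin n))) φ] Multiplicative ℤ →* H :=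
    SemidirectProduct.lift (ψ.ker.subtype.comp e.symm.toMonoidHom) (zpowersHom H t) (by
      intro m
      ext1 x
      change ((e.symm ((φ ^ m.toAdd) (FreeGroup.of x)) : ψ.ker) : H) =
        t ^ m.toAdd * ((e.symm (FreeGroup.of x) : ψ.ker) : H) * (t ^ m.toAdd)⁻¹
      have := hz m.toAdd (e.symm (FreeGroup.of x))
      rw [e.apply_symm_apply] at this
      rw [this, e.symm_apply_apply, hc])
  have hg : ∀ x, g x = ((e.symm x.left : ψ.ker) : H) * t ^ x.right.toAdd := fun _ => rfl
  have hinj : Function.Injective g := by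
    rw [injective_iff_map_eq_one]
    intro x hx
    rw [hg] at hx
    have h1 : x.right = 1 := by
      have := congrArg ψ hx
      rw [map_mul, map_zpow, ht, map_one ψ, (e.symm x.left).2, one_mul, ← ofAdd_zsmul] at this
      have h2 : x.right.toAdd • (1 : ℤ) = 0 := congrArg Multiplicative.toAdd this
      rw [smul_eq_mul, mul_one] at h2
      exact h2
    rw [h1] at hx
    have h3 : x.left = 1 := by
      have : e.symm x.left = 1 := Subtype.ext (by simpa using hx)
      rw [← e.apply_symm_apply x.left, this, map_one]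
    exact SemidirectProduct.ext h3 h1
  have hsurj : Function.Surjective g := by
    intro y
    have hm : y * (t ^ (ψ y).toAdd)⁻¹ ∈ ψ.ker := by
      rw [MonoidHom.mem_ker, map_mul, map_inv, map_zpow, ht, ← ofAdd_zsmul]
      simp
    refine ⟨⟨e ⟨_, hm⟩, ψ y⟩, ?_⟩
    rw [hg]
    simp
  exact ⟨φ, (MulEquiv.ofBijective g ⟨hinj, hsurj⟩).symm.toMonoidHom,
    (MulEquiv.ofBijective g ⟨hinj, hsurj⟩).symm.injective⟩

/-- Every finitely generated group `G` with a normal free subgroup `F` (of any rank) with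
`G ⧸ F ≃ ℤ` embeds into `F_n ⋊_φ ℤ` for some finite `n` and some automorphism `φ` of `F_n`. -/
theorem result (G : Type u) [Group G] (hG : Group.FG G) (F : Subgroup G) [F.Normal]
    (hF : IsFreeGroup F) (hq : Nonempty (G ⧸ F ≃* Multiplicative ℤ)) :
    ∃ (n : ℕ) (φ : MulAut (FreeGroup (Fin n)))
      (f : G →* FreeGroup (Fin n) ⋊[zpowersHom (MulAut (FreeGroup (Fin n))) φ] Multiplicative ℤ),
      Function.Injective f := by
  obtain ⟨q⟩ := hq
  obtain ⟨X, hX, p, hp⟩ := Group.fg_iff_exists_freeGroup_hom_surjective_finite.1 hG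
  let G' : Type := FreeGroup X ⧸ p.ker
  let e1 : G' ≃* G := QuotientGroup.quotientKerEquivOfSurjective p hp
  let φ0 : G →* Multiplicative ℤ := q.toMonoidHom.comp (QuotientGroup.mk' F)
  have hφ0 : Function.Surjective φ0 := q.surjective.comp (QuotientGroup.mk'_surjective F)
  have hker0 : φ0.ker = F := by
    ext x
    rw [MonoidHom.mem_ker]
    change q (QuotientGroup.mk' F x) = 1 ↔ x ∈ F
    rw [map_eq_one_iff q q.injective]
    exact QuotientGroup.eq_one_iff x
  let φ' : G' →* Multiplicative ℤ := φ0.comp e1.toMonoidHom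
  have hφ' : Function.Surjective φ' := hφ0.comp e1.surjective
  have hmap : φ'.ker.map e1.toMonoidHom = F := by
    rw [← hker0]
    ext x
    constructor
    · rintro ⟨y, hy, rfl⟩
      exact hy
    · intro hx
      refine ⟨e1.symm x, ?_, e1.apply_symm_apply x⟩
      change φ0 (e1 (e1.symm x)) = 1
      rw [e1.apply_symm_apply]
      exact hx
  have e2 : φ'.ker ≃* F := (e1.subgroupMap φ'.ker).trans (MulEquiv.subgroupCongr hmap)
  obtain ⟨ι, ⟨b⟩⟩ := hF.nonempty_basis
  have hfree : IsFreeGroup φ'.ker := (b.map e2.symm).isFreeGroup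
  have hfg : Group.FG G' := Group.fg_iff_exists_freeGroup_hom_surjective_finite.2
    ⟨X, hX, QuotientGroup.mk' p.ker, QuotientGroup.mk'_surjective _⟩
  obtain ⟨H, _, ψ, n, hψ, ⟨e⟩, f, hf⟩ :=
    Pool.Agent.Lib.MP_e7c36a_al.embedding G' hfg φ' hφ' hfree
  obtain ⟨φ, g, hg⟩ := embed_semidirect ψ hψ n e
  exact ⟨n, φ, (g.comp f).comp e1.symm.toMonoidHom, (hg.comp hf).comp e1.symm.injective⟩

end Pool.Agent.Results.MP_e7c36a_al.SemidirectEmbedding
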